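import Mathlib

/-!
# Morphisms from the curve `C_g : s² = g(t)` to an elliptic curve, in terms of the function field

Let `g` be a separable polynomial over `ℚ` of degree `≥ 3`, `C_g` the smooth projective curve over
`ℚ` with affine model `s² = g(t)`, and `K = ℚ(t, s)` its function field. For an elliptic curve `E`
over `ℚ` the points of `E` over `K` are the morphisms `C_g → E` over `ℚ`, and the points of `E` over
`ℚ` are the constant morphisms. The homomorphisms over `ℚ` from the Jacobian `J_g` to `E` are, up to
finite index, the group `E(K) / E(ℚ)`. The invariant differentials of `J_g` are the regular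
differentials of `C_g`.
-/

namespace HJ74

open Polynomial KaehlerDifferential
open scoped WeierstrassCurve

/-- `K` is the function field `ℚ(t, s)` of the curve `C_g : s² = g(t)` over `ℚ`: `t` is
transcendental over `ℚ`, `s² = g(t)`, and `K` is generated by `t` and `s` as a field over `ℚ`. If `g`
is not a square (for example separable and not constant), then `K`, `t`, `s` exist and are unique up
to isomorphism. -/
structure IsFunctionField (g : ℚ[X]) (K : Type) [Field K] [Algebra ℚ K] (t s : K) : Prop where
  transcendental : Transcendental ℚ t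
  equation : s ^ 2 = aeval t g
  generates : IntermediateField.adjoin ℚ {t, s} = ⊤

/-- The pull-back `φ^*(dx / (2y + a₁x + a₃))` of the invariant differential of the elliptic curve
`E` over `ℚ` along the morphism `φ` given by a point `(x, y)` of `E` over the function field `K`. It
is an element of the space `Ω[K/ℚ]` of the Kähler differentials of `K` over `ℚ`. (It is zero for the
constant morphisms.) -/
noncomputable def pullback (E : WeierstrassCurve ℚ) {K : Type} [Field K] [Algebra ℚ K]
    (φ : (E⁄K).toAffine.Point) : KaehlerDifferential ℚ K :=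
  match φ with
  | .zero => 0
  | .some x y _ => (2 * y + (E⁄K).a₁ * x + (E⁄K).a₃)⁻¹ • D ℚ K x

/-- The space `H⁰(C_g, Ω¹)` of regular differentials on the smooth projective curve `C_g : s² = g(t)`
of genus `⌊(deg g - 1) / 2⌋`: it is spanned by the `t ^ j dt / s` with
`j < ⌊(deg g - 1) / 2⌋`. -/
noncomputable def regularDifferentials (g : ℚ[X]) {K : Type} [Field K] [Algebra ℚ K] (t s : K) :
    Submodule ℚ (KaehlerDifferential ℚ K) :=
  Submodule.span ℚ {ω | ∃ j < (g.natDegree - 1) / 2, ω = (t ^ j * s⁻¹) • D ℚ K t}

/-- The constant morphisms: the image of `E(ℚ)` in `E(K)`. -/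
noncomputable def constants (E : WeierstrassCurve ℚ) (K : Type) [Field K] [Algebra ℚ K]
    [DecidableEq K] : AddSubgroup (E⁄K).toAffine.Point :=
  (WeierstrassCurve.Affine.Point.baseChange (W' := E) ℚ K).range

/-- `g = (t² + 3)(3t² + 5)(t² + t + 4)(t² - t + 4)`. -/
noncomputable def gPol : ℚ[X] :=
  (X ^ 2 + 3) * (3 * X ^ 2 + 5) * (X ^ 2 + X + 4) * (X ^ 2 - X + 4)

/-- The elliptic curve `y² = x³ - 34x² + 225x = x(x - 9)(x - 25)`. -/
def eCurve : WeierstrassCurve ℚ := ⟨0, -34, 0, 225, 0⟩

end HJ74
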