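import Mathlib
import Pool.Agent.HJ74.Defs

/-!
# The function field of `s² = g(t)`
-/

namespace HJ74

open Polynomial

namespace IsFunctionField

variable {g : ℚ[X]} {K : Type} [Field K] [Algebra ℚ K] {t s : K}

theorem aeval_ne_zero (h : IsFunctionField g K t s) {p : ℚ[X]} (hp : p ≠ 0) : aeval t p ≠ 0 :=
  fun h0 ↦ hp ((transcendental_iff.mp h.transcendental) p h0)

theorem s_ne_zero (h : IsFunctionField g K t s) (hg : g ≠ 0) : s ≠ 0 := by
  intro h0
  apply h.aeval_ne_zero hg
  rw [← h.equation, h0]
  ring

theorem essFinite (h : IsFunctionField g K t s) : Algebra.EssFiniteType ℚ K := by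
  classical
  rw [← IntermediateField.fg_top_iff]
  refine ⟨({t, s} : Finset K), ?_⟩
  rw [Finset.coe_insert, Finset.coe_singleton]
  exact h.generates

theorem D_t_ne_zero (h : IsFunctionField g K t s) (hg : g ≠ 0) :
    KaehlerDifferential.D ℚ K t ≠ 0 := by
  intro h0
  have hs0 := h.s_ne_zero hg
  have hc : CharZero K := charZero_of_injective_algebraMap (algebraMap ℚ K).injective
  have hDg : KaehlerDifferential.D ℚ K (aeval t g) = 0 := by
    have : aeval t g ∈ Algebra.adjoin ℚ {t} := aeval_mem_adjoin_singleton ℚ t
    exact Algebra.adjoin_induction (p := fun x _ ↦ KaehlerDifferential.D ℚ K x = 0)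
      (by rintro x rfl; exact h0) (by intro r; exact (KaehlerDifferential.D ℚ K).map_algebraMap r)
      (by intro x y _ _ hx hy; rw [map_add, hx, hy, add_zero])
      (by intro x y _ _ hx hy; rw [Derivation.leibniz, hx, hy, smul_zero, smul_zero, add_zero]) this
  have hDs : KaehlerDifferential.D ℚ K s = 0 := by
    rw [← h.equation, pow_two, Derivation.leibniz, ← two_smul K, smul_smul] at hDg
    exact (smul_eq_zero.mp hDg).resolve_left (mul_ne_zero two_ne_zero hs0)
  have hall : ∀ x : K, KaehlerDifferential.D ℚ K x = 0 := by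
    intro x
    have hx : x ∈ IntermediateField.adjoin ℚ {t, s} := by rw [h.generates]; trivial
    exact IntermediateField.adjoin_induction ℚ
      (p := fun x _ ↦ KaehlerDifferential.D ℚ K x = 0)
      (by
        rintro x (rfl | rfl)
        · exact h0
        · exact hDs)
      (by intro r; exact (KaehlerDifferential.D ℚ K).map_algebraMap r)
      (by intro x y _ _ hx hy; rw [map_add, hx, hy, add_zero])
      (by
        intro x _ hx
        by_cases hx0 : x = 0
        · rw [hx0]; simp
        · have hD := Derivation.leibniz (KaehlerDifferential.D ℚ K) x x⁻¹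
          rw [mul_inv_cancel₀ hx0, hx, smul_zero, add_zero, Derivation.map_one_eq_zero] at hD
          exact (smul_eq_zero.mp hD.symm).resolve_left hx0)
      (by intro x y _ _ hx hy; rw [Derivation.leibniz, hx, hy, smul_zero, smul_zero, add_zero]) hx
  have hsub : Subsingleton (Ω[K⁄ℚ]) := by
    have hspan := KaehlerDifferential.span_range_derivation ℚ K
    have : Set.range (KaehlerDifferential.D ℚ K) = {0} := by
      ext ω
      constructor
      · rintro ⟨x, rfl⟩
        exact hall x
      · rintro rfl
        exact ⟨0, map_zero _⟩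
    rw [this, Submodule.span_zero_singleton] at hspan
    exact (Submodule.subsingleton_iff K).mp (subsingleton_of_bot_eq_top hspan)
  have hunr : Algebra.FormallyUnramified ℚ K := ⟨hsub⟩
  have hess := h.essFinite
  have hsep : Algebra.IsSeparable ℚ K := (Algebra.FormallyUnramified.iff_isSeparable ℚ K).mp hunr
  exact h.transcendental (Algebra.IsAlgebraic.isAlgebraic t)

end IsFunctionField

theorem exists_isFunctionField (g : ℚ[X]) :
    ∃ (K : Type) (_ : Field K) (_ : Algebra ℚ K) (t s : K), IsFunctionField g K t s := by
  let L := AlgebraicClosure (RatFunc ℚ)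
  let t : L := algebraMap (RatFunc ℚ) L RatFunc.X
  have ht : Transcendental ℚ t := by
    have h1 : Transcendental ℚ (RatFunc.X : RatFunc ℚ) := by
      convert RatFunc.transcendental_X (K := ℚ)
      exact Subsingleton.elim _ _
    exact (transcendental_algebraMap_iff (algebraMap (RatFunc ℚ) L).injective).mpr h1
  obtain ⟨s, hs⟩ := IsAlgClosed.exists_pow_nat_eq (aeval t g) (n := 2) (by norm_num)
  have htF : t ∈ IntermediateField.adjoin ℚ {t, s} := IntermediateField.subset_adjoin ℚ _ (by simp)
  have hsF : s ∈ IntermediateField.adjoin ℚ {t, s} := IntermediateField.subset_adjoin ℚ _ (by simp)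
  refine ⟨IntermediateField.adjoin ℚ {t, s}, inferInstance,
    (IntermediateField.adjoin ℚ {t, s}).algebra', ⟨t, htF⟩, ⟨s, hsF⟩, ?_, ?_, ?_⟩
  · have : algebraMap (IntermediateField.adjoin ℚ {t, s}) L ⟨t, htF⟩ = t := rfl
    exact (transcendental_algebraMap_iff
      (algebraMap (IntermediateField.adjoin ℚ {t, s}) L).injective).mp (by rw [this]; exact ht)
  · apply (algebraMap (IntermediateField.adjoin ℚ {t, s}) L).injective
    rw [map_pow, ← aeval_algebraMap_apply]
    exact hs
  · apply IntermediateField.lift_injective (IntermediateField.adjoin ℚ {t, s})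
    have h1 := IntermediateField.lift_adjoin ℚ (IntermediateField.adjoin ℚ {t, s})
      ({⟨t, htF⟩, ⟨s, hsF⟩} : Set (IntermediateField.adjoin ℚ {t, s}))
    rw [Set.image_pair] at h1
    rw [IntermediateField.lift_top]
    exact h1

end HJ74
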