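import Mathlib

/-!
# The invariant differential as a homomorphism on the points over a field of functions

`E : y² = x³ + a₂x² + a₄x + a₆` over a field `F`, `K` an extension of `F`, `d : K → M` an
`F`-linear derivation. The map `E(K) → M`, `(x, y) ↦ dx / 2y` is a homomorphism.
-/

set_option linter.unusedSectionVars false

namespace HJ74

open WeierstrassCurve WeierstrassCurve.Affine

variable {F K M : Type*} [Field F] [Field K] [Algebra F K] [AddCommGroup M] [Module K M]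
  [Module F M] [IsScalarTower F K M]

/-- `η` is the value at `(x, y)` of the pull-back of the invariant differential. -/
def Rel (d : Derivation F K M) (a₂ a₄ x y : K) (η : M) : Prop :=
  d x = (2 * y) • η ∧ d y = (3 * x ^ 2 + 2 * a₂ * x + a₄) • η

theorem Rel.unique {d : Derivation F K M} {a₂ a₄ x y : K} {η η' : M}
    (h : Rel d a₂ a₄ x y η) (h' : Rel d a₂ a₄ x y η')
    (hns : 2 * y ≠ 0 ∨ 3 * x ^ 2 + 2 * a₂ * x + a₄ ≠ 0) : η = η' := by
  rcases hns with hn | hn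
  · exact smul_right_injective M hn (h.1.symm.trans h'.1)
  · exact smul_right_injective M hn (h.2.symm.trans h'.2)

theorem core (d : Derivation F K M) {a₂ a₄ x₁ y₁ x₂ y₂ x₃ y₃ l : K} {η₁ η₂ : M}
    (ha₂ : d a₂ = 0)
    (h₁ : Rel d a₂ a₄ x₁ y₁ η₁) (h₂ : Rel d a₂ a₄ x₂ y₂ η₂)
    (hy : y₁ - y₂ = l * (x₁ - x₂)) (hx₃ : x₃ = l ^ 2 - a₂ - x₁ - x₂)
    (hy₃ : y₃ = -(l * (x₃ - x₁) + y₁))
    (hV : a₄ - 2 * l * (y₁ - l * x₁) = x₁ * x₂ + (x₁ + x₂) * x₃)
    (hl : d l = (x₁ - x₃) • η₁ + (x₂ - x₃) • η₂) :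
    Rel d a₂ a₄ x₃ y₃ (η₁ + η₂) := by
  have hdx₃ : d x₃ = (2 * l) • d l - d x₁ - d x₂ := by
    rw [hx₃]
    simp only [map_sub, ha₂, Derivation.leibniz_pow, sub_zero]
    rw [← Nat.cast_smul_eq_nsmul K, smul_smul]
    norm_num
  have e : d x₃ = (2 * y₃) • (η₁ + η₂) := by
    rw [hdx₃, hl, h₁.1, h₂.1]
    match_scalars
    · rw [hy₃]; ring
    · rw [hy₃]; linear_combination 2 * hy
  refine ⟨e, ?_⟩
  have hdy₃ : d y₃ = -((x₃ - x₁) • d l + l • (d x₃ - d x₁) + d y₁) := by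
    rw [hy₃]
    simp only [map_neg, map_add, map_sub, Derivation.leibniz]
    module
  have hA₁ : 3 * x₁ ^ 2 + 2 * a₂ * x₁ + a₄ - 2 * l * y₁ = (x₁ - x₂) * (x₁ - x₃) := by
    have : a₂ = l ^ 2 - x₁ - x₂ - x₃ := by rw [hx₃]; ring
    rw [this]
    linear_combination hV
  have hA₃ : 3 * x₃ ^ 2 + 2 * a₂ * x₃ + a₄ + 2 * l * y₃ = (x₃ - x₁) * (x₃ - x₂) := by
    have : a₂ = l ^ 2 - x₁ - x₂ - x₃ := by rw [hx₃]; ring
    rw [this, hy₃]
    linear_combination hV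
  rw [hdy₃, hl, e, h₁.1, h₁.2]
  match_scalars
  · linear_combination -hA₃ - hA₁
  · linear_combination -hA₃

end HJ74
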