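import Mathlib
import Pool.Agent.HJ74.Omega

set_option linter.unusedSectionVars false

namespace HJ74

open WeierstrassCurve WeierstrassCurve.Affine

variable {F K M : Type*} [Field F] [Field K] [Algebra F K] [AddCommGroup M] [Module K M]
  [Module F M] [IsScalarTower F K M]

/-- `P = (x, y) ↦ dx / (2y + a₁x + a₃)`. -/
noncomputable def om (d : Derivation F K M) (W : Affine K) : W.Point → M
  | .zero => 0
  | .some x y _ => (2 * y + W.a₁ * x + W.a₃)⁻¹ • d x

@[simp] theorem om_zero (d : Derivation F K M) (W : Affine K) : om d W 0 = 0 := rfl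

@[simp] theorem om_some (d : Derivation F K M) (W : Affine K) {x y : K} (h : W.Nonsingular x y) :
    om d W (.some x y h) = (2 * y + W.a₁ * x + W.a₃)⁻¹ • d x := rfl

/-- Assumptions: a curve `y² = x³ + a₂x² + a₄x + a₆` with constant coefficients. -/
structure Const (d : Derivation F K M) (W : Affine K) : Prop where
  a₁ : W.a₁ = 0
  a₃ : W.a₃ = 0
  a₂ : d W.a₂ = 0
  a₄ : d W.a₄ = 0
  a₆ : d W.a₆ = 0

variable {d : Derivation F K M} {W : Affine K} [CharZero K]

theorem Const.eqn (c : Const d W) {x y : K} (h : W.Equation x y) :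
    y ^ 2 = x ^ 3 + W.a₂ * x ^ 2 + W.a₄ * x + W.a₆ := by
  have := (W.equation_iff x y).mp h
  rw [c.a₁, c.a₃] at this
  linear_combination this

theorem Const.ns (c : Const d W) {x y : K} (h : W.Nonsingular x y) :
    2 * y ≠ 0 ∨ 3 * x ^ 2 + 2 * W.a₂ * x + W.a₄ ≠ 0 := by
  have := ((W.nonsingular_iff x y).mp h).2
  rw [c.a₁, c.a₃] at this
  rcases this with h | h
  · right
    intro h0
    apply h
    linear_combination - h0
  · left
    intro h0
    apply h
    linear_combination h0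

theorem Const.rel (c : Const d W) {x y : K} (h : W.Nonsingular x y) :
    Rel d W.a₂ W.a₄ x y (om d W (.some x y h)) := by
  have he := congrArg d (c.eqn h.1)
  have hd : (2 * y) • d y = (3 * x ^ 2 + 2 * W.a₂ * x + W.a₄) • d x := by
    simp only [map_add, Derivation.leibniz, Derivation.leibniz_pow, c.a₂, c.a₄, c.a₆, smul_zero,
      add_zero] at he
    simp only [← Nat.cast_smul_eq_nsmul K, smul_smul] at he
    norm_num at he
    rw [he]
    module
  rw [om_some, c.a₁, c.a₃]
  by_cases hy : 2 * y = 0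
  · have hns : 3 * x ^ 2 + 2 * W.a₂ * x + W.a₄ ≠ 0 := by
      rcases c.ns h with h' | h'
      · exact absurd hy h'
      · exact h'
    have hy' : y = 0 := by
      rcases mul_eq_zero.mp hy with h' | h'
      · exact absurd h' two_ne_zero
      · exact h'
    have hx : d x = 0 := by
      rw [hy, zero_smul] at hd
      exact (smul_eq_zero.mp hd.symm).resolve_left hns
    constructor
    · rw [hx]; simp
    · rw [hy', hx]; simp
  · have hinv : (2 * y) * (2 * y)⁻¹ = 1 := mul_inv_cancel₀ hy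
    constructor
    · rw [smul_smul, zero_mul, add_zero, add_zero, hinv, one_smul]
    · rw [smul_smul, zero_mul, add_zero, add_zero, mul_comm, mul_smul, ← hd, smul_smul,
        inv_mul_cancel₀ hy, one_smul]

theorem om_eq (c : Const d W) {x y : K} (h : W.Nonsingular x y) {η : M}
    (hη : Rel d W.a₂ W.a₄ x y η) : om d W (.some x y h) = η :=
  (c.rel h).unique hη (c.ns h)

theorem om_neg (c : Const d W) (P : W.Point) : om d W (-P) = - om d W P := by
  rcases P with _ | ⟨x, y, h⟩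
  · change om d W 0 = - om d W 0
    simp
  · rw [Affine.Point.neg_some]
    apply om_eq c
    have := c.rel h
    unfold negY
    rw [c.a₁, c.a₃]
    constructor
    · rw [this.1]; module
    · simp only [zero_mul, sub_zero, map_neg]
      rw [this.2]; module

theorem om_add_some [DecidableEq K] (c : Const d W) {x₁ y₁ x₂ y₂ : K} (h₁ : W.Nonsingular x₁ y₁)
    (h₂ : W.Nonsingular x₂ y₂) (hxy : ¬(x₁ = x₂ ∧ y₁ = W.negY x₂ y₂)) :
    om d W (.some x₁ y₁ h₁ + .some x₂ y₂ h₂) = om d W (.some x₁ y₁ h₁) + om d W (.some x₂ y₂ h₂) := by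
  rw [Affine.Point.add_some hxy]
  apply om_eq c
  have r₁ := c.rel h₁
  have r₂ := c.rel h₂
  have e₁ := c.eqn h₁.1
  have e₂ := c.eqn h₂.1
  set η₁ := om d W (.some x₁ y₁ h₁) with hη₁
  set η₂ := om d W (.some x₂ y₂ h₂) with hη₂
  have hneg : W.negY x₂ y₂ = - y₂ := by
    unfold negY; rw [c.a₁, c.a₃]; ring
  rw [hneg] at hxy
  have hX : W.addX x₁ x₂ (W.slope x₁ x₂ y₁ y₂) = (W.slope x₁ x₂ y₁ y₂) ^ 2 - W.a₂ - x₁ - x₂ := by
    unfold addX; rw [c.a₁]; ring
  have hY : W.addY x₁ x₂ y₁ (W.slope x₁ x₂ y₁ y₂) =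
      -((W.slope x₁ x₂ y₁ y₂) * (W.addX x₁ x₂ (W.slope x₁ x₂ y₁ y₂) - x₁) + y₁) := by
    unfold addY negAddY negY; rw [c.a₁, c.a₃]; ring
  by_cases hx : x₁ = x₂
  · have hy : y₁ = y₂ := by
      have : y₁ ≠ - y₂ := fun h ↦ hxy ⟨hx, h⟩
      have h3 : (y₁ - y₂) * (y₁ + y₂) = 0 := by
        rw [hx] at e₁
        linear_combination e₁ - e₂
      rcases mul_eq_zero.mp h3 with h | h
      · exact sub_eq_zero.mp h
      · exact absurd (eq_neg_of_add_eq_zero_left h) this
    have hy0 : y₁ ≠ 0 := by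
      intro h0
      exact hxy ⟨hx, by rw [← hy, h0, neg_zero]⟩
    have h2y : 2 * y₁ ≠ 0 := mul_ne_zero two_ne_zero hy0
    have hη : η₁ = η₂ := by
      rw [hη₁, hη₂]
      congr 2
    have hs : 2 * y₁ * W.slope x₁ x₂ y₁ y₂ = 3 * x₁ ^ 2 + 2 * W.a₂ * x₁ + W.a₄ := by
      rw [slope_of_Y_ne hx (by rw [hneg]; exact fun h ↦ hxy ⟨hx, h⟩)]
      have : W.negY x₁ y₁ = - y₁ := by
        unfold negY; rw [c.a₁, c.a₃]; ring
      rw [this, c.a₁]
      have h2y' : y₁ - -y₁ = 2 * y₁ := by ring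
      rw [h2y', mul_div_cancel₀ _ h2y]
      ring
    set l := W.slope x₁ x₂ y₁ y₂ with hl
    have hdl : (2 * y₁) • d l + (2 * l) • d y₁ = (6 * x₁ + 2 * W.a₂) • d x₁ := by
      have hd := congrArg d hs
      have h20 : d (2 : K) = 0 := by
        have := d.map_natCast 2
        simpa using this
      have h30 : d (3 : K) = 0 := by
        have := d.map_natCast 3
        simpa using this
      simp only [map_add, Derivation.leibniz, Derivation.leibniz_pow, c.a₂, c.a₄, smul_zero,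
        add_zero, h20, h30] at hd
      simp only [← Nat.cast_smul_eq_nsmul K, smul_smul] at hd
      norm_num at hd
      rw [mul_comm 2 l, hd]
      module
    have hdl' : d l = (x₁ - W.addX x₁ x₂ l) • η₁ + (x₂ - W.addX x₁ x₂ l) • η₂ := by
      apply smul_right_injective M h2y
      change (2 * y₁) • d l = (2 * y₁) • _
      rw [eq_sub_of_add_eq hdl, r₁.1, r₁.2, ← hη, hX, ← hx]
      match_scalars
      rw [← hs]
      ring
    exact core d c.a₂ r₁ r₂ (by rw [hx, hy]; ring) hX hY (by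
      rw [hX, ← hx]
      linear_combination - hs) hdl'
  · have hsub : x₁ - x₂ ≠ 0 := sub_ne_zero.mpr hx
    have hs : W.slope x₁ x₂ y₁ y₂ * (x₁ - x₂) = y₁ - y₂ := by
      rw [slope_of_X_ne hx, div_mul_cancel₀ _ hsub]
    set l := W.slope x₁ x₂ y₁ y₂ with hl
    have hB : l * (y₁ + y₂) = x₁ ^ 2 + x₁ * x₂ + x₂ ^ 2 + W.a₂ * (x₁ + x₂) + W.a₄ := by
      apply mul_left_cancel₀ hsub
      linear_combination (y₁ + y₂) * hs + e₁ - e₂
    have hV : W.a₄ - 2 * l * (y₁ - l * x₁) = x₁ * x₂ + (x₁ + x₂) * W.addX x₁ x₂ l := by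
      rw [hX]
      linear_combination - hB + l * hs
    have hdl : (x₁ - x₂) • d l + l • (d x₁ - d x₂) = d y₁ - d y₂ := by
      have hd := congrArg d hs
      simp only [map_sub, Derivation.leibniz] at hd
      rw [← hd]
      module
    have hA₁ : 3 * x₁ ^ 2 + 2 * W.a₂ * x₁ + W.a₄ - 2 * l * y₁ =
        (x₁ - x₂) * (x₁ - W.addX x₁ x₂ l) := by
      have : W.a₂ = l ^ 2 - x₁ - x₂ - W.addX x₁ x₂ l := by rw [hX]; ring
      rw [this]
      linear_combination hV
    have hA₂ : 3 * x₂ ^ 2 + 2 * W.a₂ * x₂ + W.a₄ - 2 * l * y₂ =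
        (x₂ - x₁) * (x₂ - W.addX x₁ x₂ l) := by
      have : W.a₂ = l ^ 2 - x₁ - x₂ - W.addX x₁ x₂ l := by rw [hX]; ring
      rw [this]
      linear_combination hV - 2 * l * hs
    have hdl' : d l = (x₁ - W.addX x₁ x₂ l) • η₁ + (x₂ - W.addX x₁ x₂ l) • η₂ := by
      apply smul_right_injective M hsub
      change (x₁ - x₂) • d l = (x₁ - x₂) • _
      rw [eq_sub_of_add_eq hdl, r₁.1, r₁.2, r₂.1, r₂.2]
      match_scalars
      · linear_combination hA₁
      · linear_combination -hA₂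
    exact core d c.a₂ r₁ r₂ hs.symm hX hY hV hdl'

theorem om_add [DecidableEq K] (c : Const d W) (P Q : W.Point) :
    om d W (P + Q) = om d W P + om d W Q := by
  rcases P with _ | ⟨x₁, y₁, h₁⟩
  · change om d W (0 + Q) = om d W 0 + _
    rw [zero_add, om_zero, zero_add]
  rcases Q with _ | ⟨x₂, y₂, h₂⟩
  · change om d W (_ + 0) = _ + om d W 0
    rw [add_zero, om_zero, add_zero]
  by_cases hxy : x₁ = x₂ ∧ y₁ = W.negY x₂ y₂
  · rw [Affine.Point.add_of_Y_eq hxy.1 hxy.2]
    have : (Affine.Point.some x₁ y₁ h₁) = - (Affine.Point.some x₂ y₂ h₂) := by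
      rw [Affine.Point.neg_some]
      congr 1
      · exact hxy.1
      · exact hxy.2
    rw [this, om_neg c]
    simp
  · exact om_add_some c h₁ h₂ hxy

/-- The homomorphism `E(K) → M`. -/
noncomputable def omHom [DecidableEq K] (c : Const d W) : W.Point →+ M where
  toFun := om d W
  map_zero' := rfl
  map_add' := om_add c

end HJ74
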