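import Mathlib
import Pool.Agent.HJ74.Omega2

/-!
# Points with known differential, and their images under isogenies of degree two
-/

set_option linter.unusedSectionVars false

namespace HJ74

open WeierstrassCurve WeierstrassCurve.Affine

variable {F K M : Type*} [Field F] [Field K] [Algebra F K] [AddCommGroup M] [Module K M]
  [Module F M] [IsScalarTower F K M] [CharZero K] {d : Derivation F K M}

/-- A point `(x, y)` of `y² = x³ + ax² + bx + c`, not of order two, with `dx / 2y = η`. -/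
structure Pt (d : Derivation F K M) (a b c x y : K) (η : M) : Prop where
  eq : y ^ 2 = x ^ 3 + a * x ^ 2 + b * x + c
  y0 : y ≠ 0
  dx : d x = (2 * y) • η

theorem Pt.shift {a b c x y : K} {η : M} (h : Pt d a b c x y η) (k a' b' c' : K) (hk : d k = 0)
    (ha : a' = a - 3 * k) (hb : b' = b - 2 * a * k + 3 * k ^ 2)
    (hc : c' = c - b * k + a * k ^ 2 - k ^ 3) :
    Pt d a' b' c' (x + k) y η := by
  refine ⟨?_, h.y0, ?_⟩
  · rw [h.eq, ha, hb, hc]; ring
  · rw [map_add, hk, add_zero, h.dx]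

theorem Pt.isog {p q x y : K} {η : M} (h : Pt d p q 0 x y η) (hη : η ≠ 0) (hp : d p = 0)
    (hq : d q = 0) (p' q' : K) (hp' : p' = -2 * p) (hq' : q' = p ^ 2 - 4 * q) :
    Pt d p' q' 0 (y ^ 2 / x ^ 2) (y * (x ^ 2 - q) / x ^ 2) η := by
  have hy := h.y0
  have hx : x ≠ 0 := by
    rintro rfl
    apply hy
    have := h.eq
    simpa using this
  have hxq : x ^ 2 - q ≠ 0 := by
    intro h0
    have h1 := congrArg d (sub_eq_zero.mp h0)
    rw [hq, pow_two, Derivation.leibniz, h.dx, ← two_smul K, smul_smul, smul_smul] at h1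
    exact hη ((smul_eq_zero.mp h1).resolve_left
      (mul_ne_zero (mul_ne_zero two_ne_zero hx) (mul_ne_zero two_ne_zero hy)))
  have e : y ^ 2 / x ^ 2 = x + p + q * x⁻¹ := by
    rw [h.eq]
    field_simp
    ring
  refine ⟨?_, ?_, ?_⟩
  · rw [hp', hq']
    have h2 : y ^ 2 = x * (x ^ 2 + p * x + q) := by rw [h.eq]; ring
    have h3 : (y * (x ^ 2 - q) / x ^ 2) ^ 2 = (x * (x ^ 2 + p * x + q)) * (x ^ 2 - q) ^ 2 / x ^ 4 := by
      rw [← h2]; field_simp
    rw [h3, h2]
    field_simp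
    ring
  · exact div_ne_zero (mul_ne_zero hy hxq) (pow_ne_zero 2 hx)
  · rw [e, map_add, map_add, hp, Derivation.leibniz, hq, smul_zero, add_zero, add_zero]
    have h4 : d x⁻¹ = (-(x ^ 2)⁻¹) • d x := by
      have h5 := Derivation.leibniz d x x⁻¹
      rw [mul_inv_cancel₀ hx, Derivation.map_one_eq_zero] at h5
      have h6 : x • d x⁻¹ = - (x⁻¹ • d x) := (eq_neg_of_add_eq_zero_left h5.symm)
      apply smul_right_injective M hx
      change x • d x⁻¹ = x • _
      rw [h6]
      match_scalars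
      field_simp
    rw [h4, h.dx]
    match_scalars
    field_simp
    ring

theorem Pt.scale {a b c x y : K} {η : M} (h : Pt d a b c x y η) (u a' b' c' : K) (hu : u ≠ 0)
    (hdu : d u = 0) (ha : a = a' * u ^ 2) (hb : b = b' * u ^ 4) (hc : c = c' * u ^ 6) :
    Pt d a' b' c' (x * (u ^ 2)⁻¹) (y * (u ^ 3)⁻¹) (u • η) := by
  refine ⟨?_, mul_ne_zero h.y0 (inv_ne_zero (pow_ne_zero 3 hu)), ?_⟩
  · have := h.eq
    rw [ha, hb, hc] at this
    rw [mul_pow, this]
    field_simp
  · have hdu2 : d (u ^ 2)⁻¹ = 0 := by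
      rw [Derivation.leibniz_inv, Derivation.leibniz_pow, hdu]
      simp
    rw [Derivation.leibniz, hdu2, h.dx]
    match_scalars
    field_simp

/-- The point of a Weierstrass curve. -/
theorem Pt.nonsingular {a b c x y : K} {η : M} (h : Pt d a b c x y η) {W : Affine K}
    (h₁ : W.a₁ = 0) (h₂ : W.a₂ = a) (h₃ : W.a₃ = 0) (h₄ : W.a₄ = b) (h₆ : W.a₆ = c) :
    W.Nonsingular x y := by
  rw [W.nonsingular_iff, W.equation_iff, h₁, h₂, h₃, h₄, h₆]
  refine ⟨?_, Or.inr ?_⟩
  · rw [← h.eq]; ring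
  · have := h.y0
    intro h0
    apply this
    have h2 : (2 : K) * y = 0 := by linear_combination h0
    exact (mul_eq_zero.mp h2).resolve_left two_ne_zero

theorem Pt.om_eq {a b c x y : K} {η : M} (h : Pt d a b c x y η) {W : Affine K}
    (h₁ : W.a₁ = 0) (h₃ : W.a₃ = 0) (hns : W.Nonsingular x y) :
    om d W (.some x y hns) = η := by
  rw [om_some, h₁, h₃, h.dx, smul_smul]
  have : (2 * y + 0 * x + 0)⁻¹ * (2 * y) = 1 := by
    have h2 : 2 * y ≠ 0 := mul_ne_zero two_ne_zero h.y0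
    rw [zero_mul, add_zero, add_zero]
    exact inv_mul_cancel₀ h2
  rw [this, one_smul]

end HJ74
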