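import Mathlib
import Pool.Agent.HJ74.Isog
import Pool.Agent.HJ74.Fun

/-!
# The curve `s² = (t² + 3)(3t² + 5)(t² + t + 4)(t² - t + 4)` and three maps to
`y² = x(x - 9)(x - 25)`
-/

set_option linter.unusedSectionVars false

namespace HJ74

open Polynomial KaehlerDifferential

variable {K : Type} [Field K] [Algebra ℚ K] {t s : K}

theorem gPol_ne_zero : gPol ≠ 0 := by
  intro h
  have := congrArg (eval 0) h
  simp [gPol] at this

section points

variable (h : IsFunctionField gPol K t s)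

include h

theorem s_sq : s ^ 2 = (t ^ 2 + 3) * (3 * t ^ 2 + 5) * (t ^ 2 + t + 4) * (t ^ 2 - t + 4) := by
  have h3 : aeval t (3 : ℚ[X]) = 3 := map_ofNat _ 3
  have h4 : aeval t (4 : ℚ[X]) = 4 := map_ofNat _ 4
  have h5 : aeval t (5 : ℚ[X]) = 5 := map_ofNat _ 5
  rw [h.equation, gPol]
  simp [h3, h4, h5]

theorem w_ne : t ^ 2 + 3 ≠ 0 := by
  have := h.aeval_ne_zero (p := X ^ 2 + 3) (by
    intro h
    have := congrArg (eval 0) h
    simp at this)
  have h3 : aeval t (3 : ℚ[X]) = 3 := map_ofNat _ 3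
  simpa [h3] using this

theorem s_ne : s ≠ 0 := h.s_ne_zero gPol_ne_zero

theorem dt_ne : D ℚ K t ≠ 0 := h.D_t_ne_zero gPol_ne_zero

theorem charZero : CharZero K := charZero_of_injective_algebraMap (algebraMap ℚ K).injective

theorem d_num (n : ℕ) [n.AtLeastTwo] : D ℚ K (OfNat.ofNat n : K) = 0 := by
  have := (D ℚ K).map_natCast n
  rw [← Nat.cast_ofNat]
  exact this

theorem d_w : D ℚ K (t ^ 2 + 3) = (2 * t) • D ℚ K t := by
  rw [map_add, d_num h 3, add_zero, pow_two, Derivation.leibniz]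
  module

theorem d_w_inv : D ℚ K (t ^ 2 + 3)⁻¹ = (-(2 * t) * ((t ^ 2 + 3)⁻¹) ^ 2) • D ℚ K t := by
  rw [Derivation.leibniz_inv, d_w h, smul_smul]
  congr 1
  ring

theorem pt₁ : Pt (D ℚ K) 2 1 12 (-4 * (t ^ 2 + 3)⁻¹) (2 * s * ((t ^ 2 + 3)⁻¹) ^ 2)
    ((2 * t * s⁻¹) • D ℚ K t) := by
  have := charZero h
  have hw := w_ne h
  have hs := s_ne h
  refine ⟨?_, ?_, ?_⟩
  · rw [mul_pow, mul_pow, s_sq h]
    field_simp
    ring
  · exact mul_ne_zero (mul_ne_zero two_ne_zero hs) (pow_ne_zero 2 (inv_ne_zero hw))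
  · rw [neg_mul, map_neg, Derivation.leibniz, d_num h 4, d_w_inv h]
    match_scalars
    field_simp
    ring

theorem pt₂ : Pt (D ℚ K) 2 1 12 (-(t - 1) ^ 2 * (t ^ 2 + 3)⁻¹) (2 * s * ((t ^ 2 + 3)⁻¹) ^ 2)
    ((-(t - 1) * (t + 3) * (2 * s)⁻¹) • D ℚ K t) := by
  have := charZero h
  have hw := w_ne h
  have hs := s_ne h
  refine ⟨?_, ?_, ?_⟩
  · rw [mul_pow, mul_pow, s_sq h]
    field_simp
    ring
  · exact mul_ne_zero (mul_ne_zero two_ne_zero hs) (pow_ne_zero 2 (inv_ne_zero hw))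
  · have h1 : D ℚ K (-(t - 1) ^ 2) = (-2 * (t - 1)) • D ℚ K t := by
      rw [map_neg, pow_two, Derivation.leibniz, map_sub, Derivation.map_one_eq_zero]
      module
    rw [Derivation.leibniz, h1, d_w_inv h]
    match_scalars
    field_simp
    ring

theorem pt₃ : Pt (D ℚ K) 161 6480 0 (-27 * s ^ 2 * ((t ^ 2 + 3)⁻¹) ^ 4)
    (27 * t * s * (t ^ 2 - 1) * (t ^ 2 - 9) * ((t ^ 2 + 3)⁻¹) ^ 5)
    ((-(t ^ 2 + 3) * s⁻¹) • D ℚ K t) := by
  have := charZero h
  have hw := w_ne h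
  have hs := s_ne h
  have ht : t ≠ 0 := by
    have := h.aeval_ne_zero (p := X) X_ne_zero
    simpa using this
  have ht1 : t ^ 2 - 1 ≠ 0 := by
    have := h.aeval_ne_zero (p := X ^ 2 - 1) (by
      intro h
      have := congrArg (eval 0) h
      simp at this)
    simpa using this
  have ht9 : t ^ 2 - 9 ≠ 0 := by
    have := h.aeval_ne_zero (p := X ^ 2 - 9) (by
      intro h
      have := congrArg (eval 0) h
      simp at this)
    have h9 : aeval t (9 : ℚ[X]) = 9 := map_ofNat _ 9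
    simpa [h9] using this
  refine ⟨?_, ?_, ?_⟩
  · have e1 : (27 * t * s * (t ^ 2 - 1) * (t ^ 2 - 9) * ((t ^ 2 + 3)⁻¹) ^ 5) ^ 2 =
      27 ^ 2 * t ^ 2 * s ^ 2 * (t ^ 2 - 1) ^ 2 * (t ^ 2 - 9) ^ 2 * ((t ^ 2 + 3)⁻¹) ^ 10 := by ring
    rw [e1, s_sq h]
    field_simp
    ring
  · have : (27 : K) ≠ 0 := by norm_num
    exact mul_ne_zero (mul_ne_zero (mul_ne_zero (mul_ne_zero (mul_ne_zero this ht) hs) ht1) ht9)
      (pow_ne_zero 5 (inv_ne_zero hw))
  · have e : -27 * s ^ 2 * ((t ^ 2 + 3)⁻¹) ^ 4 = -(81 - 27 * (t ^ 2 + 3)⁻¹ +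
        216 * ((t ^ 2 + 3)⁻¹) ^ 2 - 432 * ((t ^ 2 + 3)⁻¹) ^ 3) := by
      rw [s_sq h]
      field_simp
      ring
    rw [e]
    simp only [map_neg, map_add, map_sub, Derivation.leibniz, Derivation.leibniz_pow, d_num h,
      d_w_inv h, smul_zero, add_zero]
    simp only [← Nat.cast_smul_eq_nsmul K]
    push_cast
    match_scalars
    field_simp
    ring

end points

end HJ74
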