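import Mathlib
import Pool.Agent.HJ74.Curve

/-!
# Three points of `y² = x(x - 9)(x - 25)` over the function field of
`s² = (t² + 3)(3t² + 5)(t² + t + 4)(t² - t + 4)`
-/

set_option linter.unusedSectionVars false

namespace HJ74

open Polynomial KaehlerDifferential WeierstrassCurve WeierstrassCurve.Affine

instance : eCurve.IsElliptic := by
  rw [WeierstrassCurve.isElliptic_iff]
  have : eCurve.Δ = 207360000 := by
    simp [eCurve, WeierstrassCurve.Δ, b₂, b₄, b₆, b₈]
    norm_num
  rw [this]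
  exact (by norm_num : (207360000 : ℚ) ≠ 0).isUnit

variable {K : Type} [Field K] [Algebra ℚ K] {t s : K}

variable (h : IsFunctionField gPol K t s)

include h

theorem d_neg_num (n : ℕ) [n.AtLeastTwo] : D ℚ K (-OfNat.ofNat n : K) = 0 := by
  rw [map_neg, d_num h, neg_zero]

theorem chain_a {x y : K} {η : KaehlerDifferential ℚ K} (hη : η ≠ 0) (hp : Pt (D ℚ K) 2 1 12 x y η) :
    ∃ x' y', Pt (D ℚ K) (-34) 225 0 x' y' η := by
  have := charZero h
  have h1 := hp.shift 3 (-7) 16 0 (d_num h 3) (by norm_num) (by norm_num) (by norm_num)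
  have h2 := h1.isog hη (d_neg_num h 7) (d_num h 16) 14 (-15) (by norm_num) (by norm_num)
  have h3 := h2.shift (-1) 17 16 0 (by rw [map_neg, Derivation.map_one_eq_zero, neg_zero])
    (by norm_num) (by norm_num) (by norm_num)
  exact ⟨_, _, h3.isog hη (d_num h 17) (d_num h 16) (-34) 225 (by norm_num) (by norm_num)⟩

theorem chain_b {x y : K} {η : KaehlerDifferential ℚ K} (hη : η ≠ 0) (hp : Pt (D ℚ K) 161 6480 0 x y η) :
    ∃ x' y', Pt (D ℚ K) (-34) 225 0 x' y' ((2 : K) • η) := by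
  have := charZero h
  have h1 := hp.shift 81 (-82) 81 0 (d_num h 81) (by norm_num) (by norm_num) (by norm_num)
  have h2 := h1.isog hη (d_neg_num h 82) (d_num h 81) 164 6400 (by norm_num) (by norm_num)
  have h3 := h2.scale 2 41 400 0 (by norm_num) (d_num h 2) (by norm_num) (by norm_num)
    (by norm_num)
  have h4 := h3.shift 25 (-34) 225 0 (d_num h 25) (by norm_num) (by norm_num) (by norm_num)
  exact ⟨_, _, h4⟩

/-- The coefficients of the three differentials. -/
noncomputable def cPol : Fin 3 → ℚ[X] :=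
  ![2 * X, -(C (1 / 2)) * (X - 1) * (X + 3), -2 * (X ^ 2 + 3)]

omit h in
theorem cPol_zero : cPol 0 = 2 * X := rfl
omit h in
theorem cPol_one : cPol 1 = -(C (1 / 2)) * (X - 1) * (X + 3) := rfl
omit h in
theorem cPol_two : cPol 2 = -2 * (X ^ 2 + 3) := rfl

omit h in
theorem cPol_indep {a : Fin 3 → ℚ} (ha : ∑ i, a i • cPol i = 0) : a = 0 := by
  have e0 := congrArg (eval 0) ha
  have e1 := congrArg (eval 1) ha
  have e2 := congrArg (eval (-1)) ha
  simp [Fin.sum_univ_three, cPol_zero, cPol_one, cPol_two, smul_eq_C_mul] at e0 e1 e2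
  funext i
  fin_cases i
  · simp; linarith
  · simp; linarith
  · simp; linarith

omit h in
theorem cPol_ne_zero (i : Fin 3) : cPol i ≠ 0 := by
  intro h0
  have : (Pi.single i 1 : Fin 3 → ℚ) = 0 := by
    apply cPol_indep
    simp [Pi.single_apply, h0]
  have := congrFun this i
  simp at this

theorem exists_points (i : Fin 3) :
    ∃ x y, Pt (D ℚ K) (-34) 225 0 x y ((aeval t (cPol i) * s⁻¹) • D ℚ K t) := by
  have := charZero h
  have hs := s_ne h
  have hne : ∀ i, (aeval t (cPol i) * s⁻¹) • D ℚ K t ≠ 0 := fun i ↦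
    smul_ne_zero (mul_ne_zero (h.aeval_ne_zero (cPol_ne_zero i)) (inv_ne_zero hs)) (dt_ne h)
  have a2 : aeval t (2 : ℚ[X]) = 2 := map_ofNat _ 2
  have a3 : aeval t (3 : ℚ[X]) = 3 := map_ofNat _ 3
  have e0 : (2 * t * s⁻¹) • D ℚ K t = (aeval t (cPol 0) * s⁻¹) • D ℚ K t := by
    rw [cPol_zero]
    simp [a2]
  have e1 : (-(t - 1) * (t + 3) * (2 * s)⁻¹) • D ℚ K t = (aeval t (cPol 1) * s⁻¹) • D ℚ K t := by
    rw [cPol_one]
    congr 1
    simp [a3]
    field_simp
    ring
  have e2 : (2 : K) • ((-(t ^ 2 + 3) * s⁻¹) • D ℚ K t) = (aeval t (cPol 2) * s⁻¹) • D ℚ K t := by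
    rw [cPol_two, smul_smul]
    congr 1
    simp [a3, a2]
    ring
  fin_cases i
  · have := pt₁ h
    rw [e0] at this
    exact chain_a h (hne 0) this
  · have := pt₂ h
    rw [e1] at this
    exact chain_a h (hne 1) this
  · have := pt₃ h
    obtain ⟨x, y, hxy⟩ := chain_b h (by
      intro h0
      apply hne 2
      rw [← e2, h0, smul_zero]) this
    rw [e2] at hxy
    exact ⟨x, y, hxy⟩

end HJ74
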