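import Mathlib
import Pool.Agent.HJ74.Curve

namespace HJ74

open Polynomial

theorem coprime_of {f g : ℚ[X]} (a b : ℚ[X]) (k : ℚ) (hk : k ≠ 0) (h : a * f + b * g = C k) :
    IsCoprime f g :=
  ⟨C k⁻¹ * a, C k⁻¹ * b, by
    rw [mul_assoc, mul_assoc, ← mul_add, h, ← C_mul, inv_mul_cancel₀ hk, C_1]⟩

theorem gPol_separable : gPol.Separable := by
  have n4 : (C (4 : ℚ)) = (4 : ℚ[X]) := rfl
  have n64 : (C (64 : ℚ)) = (64 : ℚ[X]) := rfl
  have n8 : (C (8 : ℚ)) = (8 : ℚ[X]) := rfl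
  have n6 : (C (6 : ℚ)) = (6 : ℚ[X]) := rfl
  have n10 : (C (10 : ℚ)) = (10 : ℚ[X]) := rfl
  have n15 : (C (15 : ℚ)) = (15 : ℚ[X]) := rfl
  have ab : IsCoprime (X ^ 2 + 3 : ℚ[X]) (3 * X ^ 2 + 5) :=
    coprime_of 3 (-1) 4 (by norm_num) (by rw [n4]; ring)
  have ac : IsCoprime (X ^ 2 + 3 : ℚ[X]) (X ^ 2 + X + 4) :=
    coprime_of X (-(X - 1)) 4 (by norm_num) (by rw [n4]; ring)
  have ae : IsCoprime (X ^ 2 + 3 : ℚ[X]) (X ^ 2 - X + 4) :=
    coprime_of (-X) (X + 1) 4 (by norm_num) (by rw [n4]; ring)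
  have bc : IsCoprime (3 * X ^ 2 + 5 : ℚ[X]) (X ^ 2 + X + 4) :=
    coprime_of (3 * X - 4) (-(9 * X - 21)) 64 (by norm_num) (by rw [n64]; ring)
  have be : IsCoprime (3 * X ^ 2 + 5 : ℚ[X]) (X ^ 2 - X + 4) :=
    coprime_of (-(3 * X + 4)) (9 * X + 21) 64 (by norm_num) (by rw [n64]; ring)
  have ce : IsCoprime (X ^ 2 + X + 4 : ℚ[X]) (X ^ 2 - X + 4) :=
    coprime_of (1 - X) (X + 1) 8 (by norm_num) (by rw [n8]; ring)
  have d3 : derivative (3 : ℚ[X]) = 0 := derivative_ofNat 3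
  have d5 : derivative (5 : ℚ[X]) = 0 := derivative_ofNat 5
  have d4 : derivative (4 : ℚ[X]) = 0 := derivative_ofNat 4
  have sa : (X ^ 2 + 3 : ℚ[X]).Separable := by
    refine coprime_of 2 (-X) 6 (by norm_num) ?_
    rw [n6, derivative_add, d3, derivative_X_sq]
    have : (C (2 : ℚ)) = (2 : ℚ[X]) := rfl
    rw [this]; ring
  have sb : (3 * X ^ 2 + 5 : ℚ[X]).Separable := by
    refine coprime_of 2 (-X) 10 (by norm_num) ?_
    rw [n10, derivative_add, d5, derivative_mul, d3, derivative_X_sq]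
    have : (C (2 : ℚ)) = (2 : ℚ[X]) := rfl
    rw [this]; ring
  have sc : (X ^ 2 + X + 4 : ℚ[X]).Separable := by
    refine coprime_of 4 (-(2 * X + 1)) 15 (by norm_num) ?_
    rw [n15, derivative_add, derivative_add, d4, derivative_X_sq, derivative_X]
    have : (C (2 : ℚ)) = (2 : ℚ[X]) := rfl
    rw [this]; ring
  have se : (X ^ 2 - X + 4 : ℚ[X]).Separable := by
    refine coprime_of 4 (-(2 * X - 1)) 15 (by norm_num) ?_
    rw [n15, derivative_add, derivative_sub, d4, derivative_X_sq, derivative_X]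
    have : (C (2 : ℚ)) = (2 : ℚ[X]) := rfl
    rw [this]; ring
  unfold gPol
  exact ((sa.mul sb ab).mul sc (ac.mul_left bc)).mul se ((ae.mul_left be).mul_left ce)

theorem gPol_natDegree : gPol.natDegree = 8 := by
  unfold gPol
  compute_degree!

end HJ74
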